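import Mathlib

/-!
# Composite valuation rings on Laurent series fields
-/

set_option autoImplicit false
set_option linter.unusedVariables false
set_option linter.unusedSectionVars false

universe u

namespace Pool.Agent.V11251.VF

open HahnSeries LaurentSeries Polynomial

variable {F : Type u} [Field F]

theorem exists_ps_of_order_nonneg (x : LaurentSeries F) (h : 0 ≤ x.order) :
    ∃ f : PowerSeries F, ofPowerSeries ℤ F f = x := by
  obtain ⟨n, hn⟩ := Int.eq_ofNat_of_zero_le h
  exact ⟨PowerSeries.X ^ n * x.powerSeriesPart, X_order_mul_powerSeriesPart hn.symm⟩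

theorem coeff_zero_ps (f : PowerSeries F) :
    (ofPowerSeries ℤ F f).coeff 0 = PowerSeries.constantCoeff f := by
  have := HahnSeries.ofPowerSeries_apply_coeff (Γ := ℤ) f 0
  simpa using this

theorem coeff_neg_ps (f : PowerSeries F) (n : ℤ) (h : n < 0) :
    (ofPowerSeries ℤ F f).coeff n = 0 := by
  rw [HahnSeries.ofPowerSeries_apply]
  apply HahnSeries.embDomain_notin_range
  rintro ⟨m, hm⟩
  simp at hm
  omega

theorem order_ps_nonneg (f : PowerSeries F) : 0 ≤ (ofPowerSeries ℤ F f).order := by
  by_cases hf : ofPowerSeries ℤ F f = 0
  · rw [hf, HahnSeries.order_zero]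
  · by_contra hneg
    push Not at hneg
    apply hf
    rw [← HahnSeries.coeff_order_eq_zero]
    exact coeff_neg_ps _ _ hneg

/-- the subring of power series with constant coefficient in `B` -/
noncomputable def AB (B : ValuationSubring F) : Subring (PowerSeries F) :=
  B.toSubring.comap PowerSeries.constantCoeff

theorem mem_AB (B : ValuationSubring F) (f : PowerSeries F) :
    f ∈ AB B ↔ PowerSeries.constantCoeff f ∈ B := Iff.rfl

/-- the composite valuation ring -/
noncomputable def comp (B : ValuationSubring F) : ValuationSubring (LaurentSeries F) :=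
  ValuationSubring.ofSubring ((AB B).map (ofPowerSeries ℤ F)) (by
    intro x
    by_cases hx : x = 0
    · left; rw [hx]; exact zero_mem _
    have hx' : x⁻¹ ≠ 0 := inv_ne_zero hx
    have hord : x.order + x⁻¹.order = 0 := by
      rw [← HahnSeries.order_mul hx hx', mul_inv_cancel₀ hx, HahnSeries.order_one]
    have key : ∀ y : LaurentSeries F, 0 < y.order →
        y ∈ (AB B).map (ofPowerSeries ℤ F) := by
      intro y hy
      obtain ⟨f, hf⟩ := exists_ps_of_order_nonneg y hy.le
      refine ⟨f, ?_, hf⟩
      show PowerSeries.constantCoeff f ∈ B
      rw [← coeff_zero_ps, hf]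
      have : y.coeff 0 = 0 := HahnSeries.coeff_eq_zero_of_lt_order hy
      rw [this]
      exact B.zero_mem
    rcases lt_trichotomy x.order 0 with h | h | h
    · right; exact key _ (by omega)
    · -- order zero
      obtain ⟨f, hf⟩ := exists_ps_of_order_nonneg x h.ge
      have hc : PowerSeries.constantCoeff f ≠ 0 := by
        rw [← coeff_zero_ps, hf]
        intro h0
        apply hx
        rw [← HahnSeries.coeff_order_eq_zero, h, h0]
      rcases B.mem_or_inv_mem (PowerSeries.constantCoeff f) with hB | hB
      · left; exact ⟨f, hB, hf⟩
      · right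
        refine ⟨f⁻¹, ?_, ?_⟩
        · show PowerSeries.constantCoeff f⁻¹ ∈ B
          rw [PowerSeries.constantCoeff_inv]
          exact hB
        · have : ofPowerSeries ℤ F f⁻¹ * x = 1 := by
            rw [← hf, ← map_mul, PowerSeries.inv_mul_cancel _ hc, map_one]
          exact (eq_inv_of_mul_eq_one_left this)
    · left; exact key _ h)

theorem mem_comp (B : ValuationSubring F) (x : LaurentSeries F) :
    x ∈ comp B ↔ ∃ f : PowerSeries F, PowerSeries.constantCoeff f ∈ B ∧
      ofPowerSeries ℤ F f = x := Iff.rfl

variable (B : ValuationSubring F)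

/-- the power series attached to an element of the composite ring -/
noncomputable def iotaEquiv : AB B ≃+* (comp B).toSubring :=
  (AB B).equivMapOfInjective (ofPowerSeries ℤ F) (ofPowerSeries_injective)

/-- the embedding of the composite ring in the ring of power series -/
noncomputable def iota : comp B →+* PowerSeries F :=
  (AB B).subtype.comp ((iotaEquiv B).symm : (comp B).toSubring →+* AB B)

theorem iota_spec (x : comp B) : ofPowerSeries ℤ F (iota B x) = x := by
  have h := (iotaEquiv B).apply_symm_apply x
  have := congrArg Subtype.val h
  exact this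

theorem iota_mem (x : comp B) : PowerSeries.constantCoeff (iota B x) ∈ B :=
  ((iotaEquiv B).symm x).2

theorem iota_injective : Function.Injective (iota B) := by
  intro x y h
  apply Subtype.ext
  rw [← iota_spec B x, ← iota_spec B y, h]

/-- lift a power series -/
noncomputable def lift (f : PowerSeries F) (hf : PowerSeries.constantCoeff f ∈ B) : comp B :=
  ⟨ofPowerSeries ℤ F f, f, hf, rfl⟩

theorem iota_lift (f : PowerSeries F) (hf : PowerSeries.constantCoeff f ∈ B) :
    iota B (lift B f hf) = f := by
  apply ofPowerSeries_injective (Γ := ℤ)
  rw [iota_spec]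
  rfl

/-- the coarsening map composed with the residue map of the coarse valuation -/
noncomputable def beta : comp B →+* B :=
  (PowerSeries.constantCoeff.comp (iota B)).codRestrict B.toSubring (iota_mem B)

theorem beta_coe (x : comp B) : ((beta B x : B) : F) = PowerSeries.constantCoeff (iota B x) := rfl

theorem beta_surjective : Function.Surjective (beta B) := by
  intro b
  refine ⟨lift B (PowerSeries.C (b : F)) (by simp), ?_⟩
  apply Subtype.ext
  rw [beta_coe, iota_lift]
  simp

theorem isUnit_of_beta (x : comp B) (h : IsUnit (beta B x)) : IsUnit x := by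
  obtain ⟨c, hc⟩ := h.exists_right_inv
  have hc' : PowerSeries.constantCoeff (iota B x) * (c : F) = 1 := by
    have := congrArg (fun z : B => (z : F)) hc
    simpa [beta_coe] using this
  have h0 : PowerSeries.constantCoeff (iota B x) ≠ 0 := by
    intro h0
    rw [h0, zero_mul] at hc'
    exact zero_ne_one hc'
  have h1 : PowerSeries.constantCoeff (iota B x)⁻¹ ∈ B := by
    rw [PowerSeries.constantCoeff_inv, inv_eq_of_mul_eq_one_right hc']
    exact c.2
  refine IsUnit.of_mul_eq_one (lift B (iota B x)⁻¹ h1) ?_
  apply iota_injective
  rw [map_mul, iota_lift, map_one, PowerSeries.mul_inv_cancel _ h0]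

theorem beta_mem_iff (x : comp B) :
    beta B x ∈ IsLocalRing.maximalIdeal B ↔ x ∈ IsLocalRing.maximalIdeal (comp B) := by
  rw [IsLocalRing.mem_maximalIdeal, IsLocalRing.mem_maximalIdeal, mem_nonunits_iff,
    mem_nonunits_iff, not_iff_not]
  exact ⟨isUnit_of_beta B x, fun h => h.map (beta B)⟩

theorem henselian_comp [HenselianLocalRing B] : HenselianLocalRing (comp B) where
  is_henselian := by
    intro f hf a₀ h₁ h₂
    -- step 1: a root in `B`
    have e1 : (f.map (beta B)).eval (beta B a₀) = beta B (f.eval a₀) := by
      rw [eval_map, eval₂_at_apply]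
    have e2 : (f.map (beta B)).derivative.eval (beta B a₀) = beta B (f.derivative.eval a₀) := by
      rw [derivative_map, eval_map, eval₂_at_apply]
    obtain ⟨b, hb, hb'⟩ := HenselianLocalRing.is_henselian (f.map (beta B)) (hf.map _) (beta B a₀)
      (by rw [e1]; exact (beta_mem_iff B _).2 h₁) (by rw [e2]; exact h₂.map _)
    -- step 2: a root in the ring of power series
    have hbunit : IsUnit ((f.map (beta B)).derivative.eval b) := by
      have h3 : (f.map (beta B)).derivative.eval b - (f.map (beta B)).derivative.eval (beta B a₀) ∈
          IsLocalRing.maximalIdeal B := by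
        have := sub_dvd_eval_sub b (beta B a₀) (f.map (beta B)).derivative
        exact Ideal.mem_of_dvd _ this hb'
      by_contra hcon
      have h4 : (f.map (beta B)).derivative.eval b ∈ IsLocalRing.maximalIdeal B :=
        (IsLocalRing.mem_maximalIdeal _).2 hcon
      have h5 : (f.map (beta B)).derivative.eval (beta B a₀) ∈ IsLocalRing.maximalIdeal B := by
        have := Ideal.sub_mem _ h4 h3
        rwa [sub_sub_cancel] at this
      rw [e2] at h5
      exact (IsLocalRing.mem_maximalIdeal _).1 h5 (h₂.map _)
    have ev : ∀ g : (comp B)[X], PowerSeries.constantCoeff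
        ((g.map (iota B)).eval (PowerSeries.C (b : F))) = (((g.map (beta B)).eval b : B) : F) := by
      intro g
      have hA : PowerSeries.constantCoeff ((g.map (iota B)).eval (PowerSeries.C (b : F))) =
          ((g.map (iota B)).map PowerSeries.constantCoeff).eval (b : F) := by
        rw [eval_map PowerSeries.constantCoeff]
        have := (eval₂_at_apply (p := g.map (iota B)) PowerSeries.constantCoeff
          (PowerSeries.C (b : F))).symm
        simpa using this
      have hB : (((g.map (beta B)).eval b : B) : F) =
          ((g.map (beta B)).map B.subtype).eval (b : F) := by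
        rw [eval_map B.subtype]
        have := (eval₂_at_apply (p := g.map (beta B)) B.subtype b).symm
        simpa using this
      rw [hA, hB, Polynomial.map_map, Polynomial.map_map]
      rfl
    have hXmem : ∀ g : PowerSeries F, g ∈ Ideal.span {(PowerSeries.X : PowerSeries F)} ↔
        PowerSeries.constantCoeff g = 0 := by
      intro g
      rw [Ideal.mem_span_singleton, PowerSeries.X_dvd_iff]
    haveI : HenselianRing (PowerSeries F) (Ideal.span {(PowerSeries.X : PowerSeries F)}) :=
      inferInstance
    obtain ⟨a, ha, ha'⟩ := HenselianRing.is_henselian (I := Ideal.span {(PowerSeries.X : PowerSeries F)})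
      (f.map (iota B)) (hf.map _) (PowerSeries.C (b : F))
      (by rw [hXmem, ev, hb.eq_zero]; rfl)
      (by
        apply IsUnit.map
        rw [PowerSeries.isUnit_iff_constantCoeff, derivative_map, ev, ← derivative_map]
        rw [isUnit_iff_ne_zero]
        intro h
        have h' : (f.map (beta B)).derivative.eval b = 0 := Subtype.ext h
        rw [h'] at hbunit
        exact not_isUnit_zero hbunit)
    rw [hXmem, map_sub, PowerSeries.constantCoeff_C, sub_eq_zero] at ha'
    have haB : PowerSeries.constantCoeff a ∈ B := by rw [ha']; exact b.2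
    refine ⟨lift B a haB, ?_, ?_⟩
    · rw [IsRoot.def]
      apply iota_injective
      rw [map_zero, ← eval₂_at_apply, iota_lift, ← eval_map]
      exact ha
    · rw [← beta_mem_iff, map_sub]
      have : beta B (lift B a haB) = b := by
        apply Subtype.ext
        rw [beta_coe, iota_lift, ha']
      rw [this]
      exact hb'

end Pool.Agent.V11251.VF
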