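import Pool.Agent.V11251.VF.Comp

set_option autoImplicit false
set_option linter.unusedVariables false
set_option linter.unusedSectionVars false

universe u

namespace Pool.Agent.V11251.VF

open HahnSeries LaurentSeries Polynomial

/-- `π` is an element of smallest positive value (values are written multiplicatively, with the
reversed order). -/
def IsUniformizer {K : Type u} [Field K] (O : ValuationSubring K) (π : K) : Prop :=
  π ≠ 0 ∧ O.valuation π < 1 ∧ ∀ x : K, O.valuation x < 1 → O.valuation x ≤ O.valuation π

theorem isUniformizer_of {K : Type u} [Field K] (O : ValuationSubring K) (π : O)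
    (h0 : (π : K) ≠ 0) (h1 : π ∈ IsLocalRing.maximalIdeal O)
    (h2 : ∀ x ∈ IsLocalRing.maximalIdeal O, ∃ y : O, y * π = x) : IsUniformizer O (π : K) := by
  refine ⟨h0, (O.valuation_lt_one_iff π).1 h1, ?_⟩
  intro x hx
  have hxO : x ∈ O := O.mem_of_valuation_le_one x hx.le
  obtain ⟨y, hy⟩ := h2 ⟨x, hxO⟩ ((O.valuation_lt_one_iff ⟨x, hxO⟩).2 hx)
  rw [O.valuation_le_iff]
  exact ⟨y, congrArg Subtype.val hy⟩

/-- residue field from a surjection to a field -/
theorem residue_iso {R : Type u} [CommRing R] [IsLocalRing R] {k : Type u} [Field k]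
    (ψ : R →+* k) (hψ : Function.Surjective ψ) : Nonempty (IsLocalRing.ResidueField R ≃+* k) := by
  have h := IsLocalRing.ker_eq_maximalIdeal ψ hψ
  exact ⟨(Ideal.quotEquivOfEq h.symm).trans (RingHom.quotientKerEquivOfSurjective hψ)⟩

section top

variable (k : Type u) [Field k]

instance henselian_top : HenselianLocalRing (⊤ : ValuationSubring k) where
  is_henselian := by
    intro f hf a₀ h₁ h₂
    have h0 : f.eval a₀ = 0 := by
      by_contra hne
      rw [IsLocalRing.mem_maximalIdeal, mem_nonunits_iff] at h₁
      apply h₁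
      have hne' : ((f.eval a₀ : (⊤ : ValuationSubring k)) : k) ≠ 0 := fun h =>
        hne (Subtype.ext h)
      refine IsUnit.of_mul_eq_one (⟨((f.eval a₀ : (⊤ : ValuationSubring k)) : k)⁻¹, trivial⟩ :
        (⊤ : ValuationSubring k)) ?_
      exact Subtype.ext (mul_inv_cancel₀ hne')
    exact ⟨a₀, h0, by rw [sub_self]; exact Ideal.zero_mem _⟩

theorem top_surj : Function.Surjective ((⊤ : ValuationSubring k).subtype) :=
  fun x => ⟨⟨x, trivial⟩, rfl⟩

theorem top_max (x : (⊤ : ValuationSubring k)) (hx : x ∈ IsLocalRing.maximalIdeal _) : x = 0 := by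
  by_contra hne
  rw [IsLocalRing.mem_maximalIdeal, mem_nonunits_iff] at hx
  apply hx
  have hne' : (x : k) ≠ 0 := fun h => hne (Subtype.ext h)
  refine IsUnit.of_mul_eq_one (⟨(x : k)⁻¹, trivial⟩ : (⊤ : ValuationSubring k)) ?_
  exact Subtype.ext (mul_inv_cancel₀ hne')

/-- the variable is a uniformizer -/
theorem unif_top : IsUniformizer (comp (⊤ : ValuationSubring k)) (single (1 : ℤ) (1 : k)) := by
  have hX : (single (1 : ℤ) (1 : k)) =
      ((lift (⊤ : ValuationSubring k) PowerSeries.X trivial : comp (⊤ : ValuationSubring k)) :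
        LaurentSeries k) := by
    show _ = ofPowerSeries ℤ k PowerSeries.X
    rw [ofPowerSeries_X]
  rw [hX]
  apply isUniformizer_of
  · rw [← hX]
    exact HahnSeries.single_ne_zero one_ne_zero
  · rw [← beta_mem_iff]
    have : beta (⊤ : ValuationSubring k) (lift (⊤ : ValuationSubring k) PowerSeries.X trivial) = 0 := by
      apply Subtype.ext
      rw [beta_coe, iota_lift]
      simp
    rw [this]
    exact Ideal.zero_mem _
  · intro x hx
    rw [← beta_mem_iff] at hx
    have h0 := top_max k _ hx
    have h1 : PowerSeries.constantCoeff (iota _ x) = 0 := by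
      rw [← beta_coe, h0]; rfl
    obtain ⟨g, hg⟩ := PowerSeries.X_dvd_iff.2 h1
    refine ⟨lift _ g trivial, ?_⟩
    apply iota_injective
    rw [map_mul, iota_lift, iota_lift, hg, mul_comm]

/-- all values of `k((t))` are powers of the value of `t` -/
theorem value_zpow (x : LaurentSeries k) (hx : x ≠ 0) :
    (comp (⊤ : ValuationSubring k)).valuation x =
      (comp (⊤ : ValuationSubring k)).valuation (single (1 : ℤ) (1 : k)) ^ x.order := by
  set O := comp (⊤ : ValuationSubring k) with hO
  have hs : (single (1 : ℤ) (1 : k)) ≠ 0 := HahnSeries.single_ne_zero one_ne_zero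
  have hz : single x.order (1 : k) = (single (1 : ℤ) (1 : k)) ^ x.order := by
    have h1 := RatFunc.single_zpow (F := k) x.order
    rw [h1]
  have h1 := x.single_order_mul_powerSeriesPart
  have h2 : PowerSeries.constantCoeff x.powerSeriesPart ≠ 0 := by
    have h3 := LaurentSeries.powerSeriesPart_coeff x 0
    rw [PowerSeries.coeff_zero_eq_constantCoeff_apply] at h3
    rw [h3]
    intro h4
    apply hx
    rw [← HahnSeries.coeff_order_eq_zero]
    simpa using h4
  have hu : IsUnit (lift (⊤ : ValuationSubring k) x.powerSeriesPart trivial) := by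
    apply isUnit_of_beta
    have hb : ((beta _ (lift (⊤ : ValuationSubring k) x.powerSeriesPart trivial) :
        (⊤ : ValuationSubring k)) : k) ≠ 0 := by
      rw [beta_coe, iota_lift]; exact h2
    refine IsUnit.of_mul_eq_one (⟨((beta _ (lift (⊤ : ValuationSubring k) x.powerSeriesPart
      trivial) : (⊤ : ValuationSubring k)) : k)⁻¹, trivial⟩ : (⊤ : ValuationSubring k)) ?_
    exact Subtype.ext (mul_inv_cancel₀ hb)
  have hv : O.valuation (ofPowerSeries ℤ k x.powerSeriesPart) = 1 :=
    (O.valuation_eq_one_iff (lift (⊤ : ValuationSubring k) x.powerSeriesPart trivial)).1 hu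
  calc O.valuation x = O.valuation (single x.order 1 * ofPowerSeries ℤ k x.powerSeriesPart) := by
        rw [h1]
    _ = _ := by rw [map_mul, hv, mul_one, hz, map_zpow₀]

end top

section comp

variable {F : Type u} [Field F] (B : ValuationSubring F)

/-- a uniformizer of `B` gives one of the composite ring -/
theorem unif_comp (p : F) (hp : IsUniformizer B p) : IsUniformizer (comp B) (HahnSeries.C p) := by
  obtain ⟨hp0, hp1, hp2⟩ := hp
  have hpB : p ∈ B := B.mem_of_valuation_le_one p hp1.le
  have hpm : (⟨p, hpB⟩ : B) ∈ IsLocalRing.maximalIdeal B := (B.valuation_lt_one_iff ⟨p, hpB⟩).2 hp1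
  have hC : (HahnSeries.C p : LaurentSeries F) =
      ((lift B (PowerSeries.C p) (by simpa using hpB) : comp B) : LaurentSeries F) := by
    show _ = ofPowerSeries ℤ F (PowerSeries.C p)
    rw [ofPowerSeries_C]
  rw [hC]
  apply isUniformizer_of
  · rw [← hC]
    exact (map_ne_zero_iff _ HahnSeries.C_injective).2 hp0
  · rw [← beta_mem_iff]
    have : beta B (lift B (PowerSeries.C p) (by simpa using hpB)) = ⟨p, hpB⟩ := by
      apply Subtype.ext
      rw [beta_coe, iota_lift]
      simp
    rw [this]
    exact hpm
  · intro x hx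
    rw [← beta_mem_iff] at hx
    have h3 := (B.valuation_lt_one_iff _).1 hx
    have h4 := hp2 _ h3
    rw [B.valuation_le_iff] at h4
    obtain ⟨y, hy⟩ := h4
    have hy' : PowerSeries.constantCoeff (iota B x) = (y : F) * p := by
      rw [← beta_coe, hy]
    have hg : PowerSeries.constantCoeff (PowerSeries.C p⁻¹ * iota B x) ∈ B := by
      rw [map_mul, PowerSeries.constantCoeff_C, hy', mul_comm (y : F) p, inv_mul_cancel_left₀ hp0]
      exact y.2
    refine ⟨lift B _ hg, ?_⟩
    apply iota_injective
    rw [map_mul, iota_lift, iota_lift]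
    have : PowerSeries.C p⁻¹ * PowerSeries.C p = 1 := by
      rw [← map_mul, inv_mul_cancel₀ hp0, map_one]
    linear_combination (iota B x) * this

/-- units of the composite ring have order `0` -/
theorem order_unit (x y : LaurentSeries F) (hx : x ≠ 0) (hy : y ≠ 0)
    (h : (comp B).valuation x = (comp B).valuation y) : x.order = y.order := by
  rw [ValuationSubring.valuation_eq_iff] at h
  obtain ⟨a, ha⟩ := h
  have ha0 : (((a : (comp B)ˣ) : comp B) : LaurentSeries F) ≠ 0 := by
    intro h0
    rw [h0, zero_mul] at ha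
    exact hx ha.symm
  have h1 : 0 ≤ (((a : (comp B)ˣ) : comp B) : LaurentSeries F).order := by
    rw [← iota_spec]; exact order_ps_nonneg _
  have h2 : 0 ≤ (((a⁻¹ : (comp B)ˣ) : comp B) : LaurentSeries F).order := by
    rw [← iota_spec]; exact order_ps_nonneg _
  have h3 : (((a : (comp B)ˣ) : comp B) : LaurentSeries F) *
      (((a⁻¹ : (comp B)ˣ) : comp B) : LaurentSeries F) = 1 := by
    have := congrArg Subtype.val (a.mul_inv)
    exact this
  have ha0' : (((a⁻¹ : (comp B)ˣ) : comp B) : LaurentSeries F) ≠ 0 := by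
    intro h0
    rw [h0, mul_zero] at h3
    exact zero_ne_one h3
  have h4 := congrArg HahnSeries.order h3
  rw [HahnSeries.order_mul ha0 ha0', HahnSeries.order_one] at h4
  have h5 := congrArg HahnSeries.order ha
  rw [HahnSeries.order_mul ha0 hy] at h5
  omega

end comp

end Pool.Agent.V11251.VF
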